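import Pool.Agent.Helper13.JS.St
import Pool.Agent.Helper2.Average

/-!
Project JS (MP_924f75_nt), module B4: small conductors.
-/

set_option autoImplicit false

namespace Pool.Agent.Helper84.JS

open Finset ArithmeticFunction Pool.Agent.Helper13.JS
open Pool.Agent.Helper15.AB (IsW TT SP)
open Pool.Agent.Helper60.GP (II)

theorem card_pf {q : ℕ} (hq : q ≠ 0) :
    (#q.primeFactors : ℝ) * Real.log 2 ≤ Real.log q := by
  have h1 : 2 ^ (#q.primeFactors) ≤ q := by
    calc 2 ^ (#q.primeFactors) ≤ ∏ p ∈ q.primeFactors, p :=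
          pow_card_le_prod _ _ _ fun p hp => (Nat.prime_of_mem_primeFactors hp).two_le
      _ ≤ q := Nat.le_of_dvd (Nat.pos_of_ne_zero hq) (Nat.prod_primeFactors_dvd q)
  rw [← Real.log_pow]
  apply Real.log_le_log (by positivity)
  exact_mod_cast h1

/-- the terms which are not coprime to `k` -/
theorem nonco {V : ℝ} {k : ℕ} (hV : 3 ≤ V) (hk : 1 ≤ k) :
    ∑ n ∈ (Ioc 0 ⌊3 * V⌋₊).filter (fun n => ¬ n.Coprime k), vonMangoldt n ≤
      3 * Real.log V * Real.log (2 * k) := by
  have hV0 : (0 : ℝ) < V := by linarith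
  have hk0 : (1 : ℝ) ≤ k := by exact_mod_cast hk
  refine (Pool.Agent.Helper2.sum_noncoprime_le ⌊3 * V⌋₊ k (by omega)).trans ?_
  have hlog2' : (0.69 : ℝ) < Real.log 2 := by
    have := Real.log_two_gt_d9
    linarith
  have hc := card_pf (q := k) (by omega)
  have hlV : 0 < Real.log V := Real.log_pos (by linarith)
  have hlk : Real.log k ≤ Real.log (2 * k) := Real.log_le_log (by linarith) (by linarith)
  have hl3 : Real.log ⌊3 * V⌋₊ ≤ 2 * Real.log V := by
    have h3 : (1 : ℝ) ≤ ⌊3 * V⌋₊ := by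
      have : 1 ≤ ⌊3 * V⌋₊ := by
        rw [Nat.one_le_floor_iff]
        linarith
      exact_mod_cast this
    calc Real.log ⌊3 * V⌋₊ ≤ Real.log (3 * V) :=
          Real.log_le_log (by linarith) (Nat.floor_le (by linarith))
      _ = Real.log 3 + Real.log V := Real.log_mul (by norm_num) hV0.ne'
      _ ≤ Real.log V + Real.log V := by
          gcongr
      _ = _ := by ring
  have hcard : (#k.primeFactors : ℝ) ≤ Real.log (2 * k) / 0.69 := by
    rw [le_div_iff₀ (by norm_num)]
    calc (#k.primeFactors : ℝ) * 0.69 ≤ (#k.primeFactors : ℝ) * Real.log 2 := by gcongr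
      _ ≤ Real.log (2 * k) := hc.trans hlk
  have hl2k : 0 ≤ Real.log (2 * k) := Real.log_nonneg (by linarith)
  calc (#k.primeFactors : ℝ) * Real.log ⌊3 * V⌋₊ ≤ (Real.log (2 * k) / 0.69) * (2 * Real.log V) := by
        gcongr
    _ ≤ 3 * Real.log V * Real.log (2 * k) := by
        have h : 0 ≤ Real.log V * Real.log (2 * k) := by positivity
        have e : (Real.log (2 * k) / 0.69) * (2 * Real.log V) =
            (2 / 0.69) * (Real.log V * Real.log (2 * k)) := by ring
        rw [e, mul_assoc 3]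
        apply mul_le_mul_of_nonneg_right _ h
        norm_num

/-- one character -/
theorem one_char {ω : ℝ → ℝ} (hω : IsW ω) {V T : ℝ} {M k r : ℕ} {α : ℕ → ℝ} (hV : 3 ≤ V)
    (hk : 1 ≤ k) (hα : ∀ m, |α m| ≤ 1) (ψ : DirichletCharacter ℂ r)
    (hT : ‖TT ω V (fun n => ψ (n : ZMod r))‖ ≤ T) :
    Gk ω V M α k (fun n => ψ (n : ZMod r)) ≤ M * (T + 3 * Real.log V * Real.log (2 * k)) := by
  classical
  unfold Gk
  have h1 : ‖∑ m ∈ (Icc 1 M).filter (fun m => Nat.Coprime m k), (α m : ℂ) * ψ (m : ZMod r)‖ ≤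
      M := by
    refine (norm_sum_le _ _).trans ?_
    calc ∑ m ∈ (Icc 1 M).filter (fun m => Nat.Coprime m k), ‖(α m : ℂ) * ψ (m : ZMod r)‖
        ≤ ∑ m ∈ (Icc 1 M).filter (fun m => Nat.Coprime m k), (1 : ℝ) := by
          refine sum_le_sum fun m _ => ?_
          rw [norm_mul, Complex.norm_real, Real.norm_eq_abs]
          calc |α m| * ‖ψ (m : ZMod r)‖ ≤ 1 * 1 :=
                mul_le_mul (hα m) (DirichletCharacter.norm_le_one ψ _) (norm_nonneg _) zero_le_one
            _ = 1 := one_mul 1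
      _ = (((Icc 1 M).filter (fun m => Nat.Coprime m k)).card : ℝ) := by simp
      _ ≤ M := by
          have := card_filter_le (Icc 1 M) (fun m => Nat.Coprime m k)
          rw [Nat.card_Icc, Nat.add_sub_cancel] at this
          exact_mod_cast this
  have h2 : ‖∑ n ∈ (II V).filter (fun n => Nat.Coprime n k),
      ((Λ n * ω (Real.log (n / V)) : ℝ) : ℂ) * ψ (n : ZMod r)‖ ≤
      T + 3 * Real.log V * Real.log (2 * k) := by
    have e : ∑ n ∈ (II V).filter (fun n => Nat.Coprime n k),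
        ((Λ n * ω (Real.log (n / V)) : ℝ) : ℂ) * ψ (n : ZMod r) =
        TT ω V (fun n => ψ (n : ZMod r)) - ∑ n ∈ (II V).filter (fun n => ¬ Nat.Coprime n k),
          ((Λ n * ω (Real.log (n / V)) : ℝ) : ℂ) * ψ (n : ZMod r) := by
      rw [eq_sub_iff_add_eq]
      exact sum_filter_add_sum_filter_not (II V) (fun n => Nat.Coprime n k) _
    rw [e]
    refine (norm_sub_le _ _).trans (add_le_add hT ?_)
    refine (norm_sum_le _ _).trans (le_trans ?_ (nonco hV hk))
    have e2 : II V = Ioc 0 ⌊3 * V⌋₊ := by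
      ext n
      simp only [II, mem_Icc, mem_Ioc]
      omega
    rw [e2]
    refine sum_le_sum fun n _ => ?_
    rw [norm_mul, Complex.norm_real, Real.norm_eq_abs,
      abs_of_nonneg (mul_nonneg vonMangoldt_nonneg (hω.nonneg _))]
    calc Λ n * ω (Real.log (n / V)) * ‖ψ (n : ZMod r)‖ ≤ (Λ n * 1) * 1 := by
          refine mul_le_mul ?_ (DirichletCharacter.norm_le_one ψ _) (norm_nonneg _) ?_
          · exact mul_le_mul_of_nonneg_left (hω.le_one _) vonMangoldt_nonneg
          · exact mul_nonneg vonMangoldt_nonneg zero_le_one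
      _ = Λ n := by ring
  exact mul_le_mul h1 h2 (norm_nonneg _) (Nat.cast_nonneg _)

/-- module B4 -/
theorem hB4 (hSC : Pool.Agent.Helper60.GP.StSCc) : StB4 := by
  classical
  intro ω hω
  refine ⟨3, by norm_num, ?_⟩
  intro A B
  obtain ⟨x₀, hx₀⟩ := hSC ω hω A B
  refine ⟨max x₀ 3, le_max_right _ _, ?_⟩
  intro V M R k α hV hk hR hα
  have hVx : x₀ ≤ V := (le_max_left _ _).trans hV
  have hV3 : 3 ≤ V := (le_max_right _ _).trans hV
  have hlV : 0 < Real.log V := Real.log_pos (by linarith)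
  have hk0 : (1 : ℝ) ≤ k := by exact_mod_cast hk
  have hl2k : 0 ≤ Real.log (2 * k) := Real.log_nonneg (by linarith)
  have hW : 0 ≤ (M : ℝ) * (V / Real.log V ^ A + 3 * Real.log V * Real.log (2 * k)) := by positivity
  have hmain : ∀ r ∈ Ioc 1 R, 1 / (Nat.totient r : ℝ) * SP (Gk ω V M α k) r ≤
      M * (V / Real.log V ^ A + 3 * Real.log V * Real.log (2 * k)) := by
    intro r hr
    rw [mem_Ioc] at hr
    have hr0 : r ≠ 0 := by omega
    haveI : NeZero r := ⟨hr0⟩
    have hφ : (0 : ℝ) < Nat.totient r := by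
      exact_mod_cast Nat.totient_pos.mpr (Nat.pos_of_ne_zero hr0)
    unfold SP
    rw [dif_neg hr0]
    have hrB : (r : ℝ) ≤ Real.log V ^ B := by
      refine le_trans ?_ hR
      exact_mod_cast hr.2
    have h1 : ∑ ψ ∈ (univ : Finset (DirichletCharacter ℂ r)).filter (fun ψ => ψ.IsPrimitive),
        Gk ω V M α k (fun n => ψ (n : ZMod r)) ≤
        ∑ ψ ∈ (univ : Finset (DirichletCharacter ℂ r)).filter (fun ψ => ψ.IsPrimitive),
          (M * (V / Real.log V ^ A + 3 * Real.log V * Real.log (2 * k)) : ℝ) := by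
      refine sum_le_sum fun ψ hψ => ?_
      rw [mem_filter] at hψ
      have hne : ψ ≠ 1 := by
        rintro rfl
        have h := hψ.2
        rw [DirichletCharacter.isPrimitive_def, DirichletCharacter.conductor_one] at h
        omega
      exact one_char hω hV3 hk hα ψ (hx₀ V hVx r ψ hrB hψ.2 hne)
    have h2 : (((univ : Finset (DirichletCharacter ℂ r)).filter
        (fun ψ => ψ.IsPrimitive)).card : ℝ) ≤ Nat.totient r := by
      have h3 := card_filter_le (univ : Finset (DirichletCharacter ℂ r)) (fun ψ => ψ.IsPrimitive)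
      rw [card_univ, ← Nat.card_eq_fintype_card,
        DirichletCharacter.card_eq_totient_of_hasEnoughRootsOfUnity ℂ r] at h3
      exact_mod_cast h3
    rw [sum_const, nsmul_eq_mul] at h1
    rw [one_div, inv_mul_le_iff₀ hφ]
    exact h1.trans (mul_le_mul_of_nonneg_right h2 hW)
  calc ∑ r ∈ Ioc 1 R, 1 / (Nat.totient r : ℝ) * SP (Gk ω V M α k) r
      ≤ ∑ r ∈ Ioc 1 R, (M * (V / Real.log V ^ A + 3 * Real.log V * Real.log (2 * k)) : ℝ) :=
        sum_le_sum hmain
    _ = ((R - 1 : ℕ) : ℝ) * (M * (V / Real.log V ^ A + 3 * Real.log V * Real.log (2 * k))) := by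
        rw [sum_const, Nat.card_Ioc, nsmul_eq_mul]
    _ ≤ (R : ℝ) * (M * (V / Real.log V ^ A + 3 * Real.log V * Real.log (2 * k))) := by
        refine mul_le_mul_of_nonneg_right ?_ hW
        exact_mod_cast Nat.sub_le R 1
    _ = _ := by ring

end Pool.Agent.Helper84.JS
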